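import Mathlib

set_option autoImplicit false

open Polynomial

namespace Pool.Agent.Results.MP_505b57_nt.PolyFinite

/-- `g` is conjugate to `f` by an affine map: `φ ∘ f = g ∘ φ` with `φ(z) = a z + b`, `a ≠ 0`. -/
def Conj {K : Type} [Field K] (f g : K[X]) : Prop :=
  ∃ a b : K, a ≠ 0 ∧ C a * f + C b = g.comp (C a * X + C b)

/-- `f` is postcritically finite: every finite critical point has a finite forward orbit
(the critical point `∞` of a polynomial is fixed). -/
def PCF {K : Type} [Field K] (f : K[X]) : Prop :=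
  ∀ z : K, f.derivative.eval z = 0 → (Set.range fun n : ℕ => (fun w => f.eval w)^[n] z).Finite

/-- The set `P_d(ℚ_p) ∩ PCF`: affine conjugacy classes of postcritically finite polynomials of degree `d`
over the algebraic closure of `ℚ_p` that are fixed by the absolute Galois group of `ℚ_p`. -/
def classes (d p : ℕ) [Fact p.Prime] : Set (Set (AlgebraicClosure ℚ_[p])[X]) :=
  {S | ∃ f : (AlgebraicClosure ℚ_[p])[X], f.natDegree = d ∧ PCF f ∧
    (∀ σ : AlgebraicClosure ℚ_[p] ≃ₐ[ℚ_[p]] AlgebraicClosure ℚ_[p],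
      Conj f (f.map (σ : AlgebraicClosure ℚ_[p] →+* AlgebraicClosure ℚ_[p]))) ∧
    S = {g | Conj f g}}

theorem half {y : ℚ_[2]} (h : ‖y‖ < 1) : ‖y‖ ≤ 1 / 2 := by
  have := (Padic.norm_le_pow_iff_norm_lt_pow_add_one y (-1)).2 (by simpa using h)
  simpa using this

theorem n2 (y : ℚ_[2]) : ‖2 * y‖ = ‖y‖ / 2 := by
  have : ‖(2 : ℚ_[2])‖ = 2⁻¹ := by simpa using Padic.norm_p (p := 2)
  rw [norm_mul, this]; ring

theorem big {a b : ℚ_[2]} (h : ‖b‖ < ‖a‖) : ‖a + b‖ = ‖a‖ := by
  rw [IsUltrametricDist.norm_add_eq_max_of_norm_ne_norm h.ne', max_eq_left h.le]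

theorem le_of {a b : ℚ_[2]} {r : ℝ} (h1 : ‖a‖ ≤ r) (h2 : ‖b‖ ≤ r) : ‖a + b‖ ≤ r :=
  (IsUltrametricDist.norm_add_le_max a b).trans (max_le h1 h2)

theorem lt_of {a b : ℚ_[2]} {r : ℝ} (h1 : ‖a‖ < r) (h2 : ‖b‖ < r) : ‖a + b‖ < r :=
  (IsUltrametricDist.norm_add_le_max a b).trans_lt (max_lt h1 h2)

theorem key (c : ℚ_[2]) (x : ℕ → ℚ_[2]) (h0 : x 0 = 0) (hx : ∀ n, x (n + 1) = x n ^ 2 + c)
    (hf : (Set.range x).Finite) : c = 0 ∨ c = -1 ∨ c = -2 := by
  have he : ∀ k n, x (n + 1 + k) - x (n + 1) = (x (n + k) - x n) * (x (n + k) + x n) := fun k n => by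
    rw [add_right_comm, hx, hx]; ring
  have L : ∀ k, (∀ n, ‖x (n + k) + x n‖ < 1) → (∀ n, x (n + k) + x n ≠ 0) → False := by
    intro k h1 h2
    have h3 : ∀ n, 0 < ‖x (n + k) - x n‖ := fun n => by
      induction n with
      | zero => simpa [h0] using h2 0
      | succ n ih => rw [he, norm_mul]; exact mul_pos ih (norm_pos_iff.2 (h2 n))
    have h4 : StrictAnti fun n => ‖x (n + k) - x n‖ := strictAnti_nat_of_succ_lt fun n => by
      simp only [he, norm_mul]
      exact mul_lt_of_lt_one_right (h3 n) (h1 n)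
    refine Set.infinite_range_of_injective h4.injective
      (((hf.prod hf).image fun z => ‖z.1 - z.2‖).subset ?_)
    rintro _ ⟨n, rfl⟩
    exact ⟨(x (n + k), x n), ⟨⟨_, rfl⟩, ⟨_, rfl⟩⟩, rfl⟩
  have x1 : x 1 = c := by rw [hx, h0]; ring
  have x2 : x 2 = c ^ 2 + c := by rw [hx, x1]
  by_contra hc
  push Not at hc
  obtain ⟨c0, c1, c2⟩ := hc
  have cp := norm_pos_iff.2 c0
  rcases lt_or_ge 1 ‖c‖ with h | h
  · have h1 : ∀ n, ‖c‖ ≤ ‖x (n + 1)‖ → ‖x (n + 1)‖ < ‖x (n + 1 + 1)‖ := fun n h1 => by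
      rw [hx (n + 1), big (by rw [norm_pow]; nlinarith), norm_pow]; nlinarith
    have h2 : ∀ n, ‖c‖ ≤ ‖x (n + 1)‖ := fun n => by
      induction n with
      | zero => rw [zero_add, x1]
      | succ n ih => exact ih.trans (h1 n ih).le
    refine Set.infinite_range_of_injective (strictMono_nat_of_lt_succ
      (f := fun n => ‖x (n + 1)‖) fun n => h1 n (h2 n)).injective ((hf.image norm).subset ?_)
    rintro _ ⟨n, rfl⟩
    exact ⟨_, ⟨_, rfl⟩, rfl⟩
  have b1 : ∀ n, ‖x n‖ ≤ 1 := fun n => by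
    induction n with
    | zero => simp [h0]
    | succ n ih => rw [hx]; exact le_of (by rw [norm_pow]; nlinarith [norm_nonneg (x n)]) h
  have mono : ∀ k n, ‖x (n + 1 + k) - x (n + 1)‖ ≤ ‖x (n + k) - x n‖ := fun k n => by
    rw [he, norm_mul]
    exact mul_le_of_le_one_right (norm_nonneg _) (le_of (b1 _) (b1 _))
  have zer : ∀ k n, x (n + k) + x n = 0 → ‖x (n + k) - x n‖ = ‖x n‖ / 2 := fun k n h => by
    rw [← n2, ← norm_neg]; congr 1; linear_combination -h
  rcases lt_or_eq_of_le h with h | h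
  · have hh := half h
    have h1 : ∀ n, ‖x (n + 1)‖ = ‖c‖ := fun n => by
      induction n with
      | zero => rw [zero_add, x1]
      | succ n ih => rw [hx, add_comm, big (by rw [norm_pow, ih]; nlinarith)]
    have h2 : ∀ n, ‖x n‖ ≤ ‖c‖ := fun n => by
      cases n with
      | zero => simp [h0]
      | succ n => exact (h1 n).le
    have h3 : ∀ n, ‖x (n + 2 + 1) - x (n + 2)‖ < ‖c‖ / 2 := fun n => by
      induction n with
      | zero =>
        have e := he 1 1
        have e2 : x (1 + 1) - x 1 = c ^ 2 := by rw [x2, x1]; ring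
        show ‖x (1 + 1 + 1) - x (1 + 1)‖ < _
        rw [e, e2, norm_mul, norm_pow]
        have := mul_le_mul_of_nonneg_left (le_of (h2 (1 + 1)) (h2 1)) (sq_nonneg ‖c‖)
        nlinarith [mul_pos cp cp]
      | succ n ih => exact (mono 1 (n + 2)).trans_lt ih
    refine L 1 (fun n => lt_of ((h2 _).trans_lt h) ((h2 _).trans_lt h)) fun n hn => ?_
    rcases n with _ | _ | n
    · exact c0 (by simpa [x1, h0] using hn)
    · rw [zero_add, x2, x1] at hn
      exact mul_ne_zero c0 (fun h => c2 (by linear_combination h) : c + 2 ≠ 0)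
        (by linear_combination hn)
    · have := zer 1 _ hn
      have := h3 n
      have := h1 (n + 1)
      linarith
  · have hw : ‖c + 1‖ < 1 := by
      obtain ⟨m, hm, hm'⟩ := PadicInt.exists_mem_range (p := 2) ⟨c, h.le⟩
      have h1 : ‖c - m‖ < 1 := by
        have := PadicInt.mem_nonunits.1 hm'
        simpa [PadicInt.norm_def] using this
      interval_cases m
      · simp [h] at h1
      · have := lt_of h1 (b := 2 * 1) (by rw [n2]; norm_num)
        rwa [show c - (1 : ℕ) + 2 * 1 = c + 1 by push_cast; ring] at this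
    have w1 : ‖x 2‖ = ‖c + 1‖ := by
      rw [x2, show c ^ 2 + c = c * (c + 1) by ring, norm_mul, h, one_mul]
    have wp : 0 < ‖x 2‖ := by
      rw [w1]; exact norm_pos_iff.2 fun h => c1 (by linear_combination h)
    have wh : ‖x 2‖ ≤ 1 / 2 := w1 ▸ half hw
    have e1 : ‖x (1 + 2) - x 1‖ = ‖x 2‖ ^ 2 := by
      rw [show 1 + 2 = 2 + 1 from rfl, hx 2, x1, add_sub_cancel_right, norm_pow]
    have h1 : ∀ n, ‖x (n + 1 + 2) - x (n + 1)‖ ≤ ‖x 2‖ ^ 2 := fun n => by
      induction n with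
      | zero => exact e1.le
      | succ n ih => exact (mono 2 (n + 1)).trans ih
    have h2 : ∀ n, ‖x (n + 2) + x n‖ < 1 := fun n => by
      rw [show x (n + 2) + x n = x (n + 2) - x n + 2 * x n by ring]
      refine lt_of ?_ (by rw [n2]; linarith [b1 n])
      cases n with
      | zero => rw [h0, sub_zero, zero_add]; linarith
      | succ n => nlinarith [h1 n]
    have h3 : ∀ n, ‖x (n + 2 + 2) - x (n + 2)‖ < ‖x 2‖ / 2 := fun n => by
      induction n with
      | zero =>
        rw [zero_add, show 2 + 2 = 1 + 1 + 2 from rfl, show x 2 = x (1 + 1) from rfl, he 2 1,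
          norm_mul, e1]
        have := mul_le_mul_of_nonneg_left (half (h2 1)) (sq_nonneg ‖x 2‖)
        show _ < ‖x 2‖ / 2
        nlinarith
      | succ n ih => exact (mono 2 (n + 2)).trans_lt ih
    have h4 : ∀ n, ‖x 2‖ ≤ ‖x (n + 1)‖ ∧ ‖x 2‖ ≤ ‖x (n + 2)‖ := fun n => by
      induction n with
      | zero => exact ⟨by rw [zero_add, x1, h]; linarith, le_rfl⟩
      | succ n ih =>
        refine ⟨ih.2, ?_⟩
        rw [show x (n + 1 + 2) = x (n + 1) + (x (n + 1 + 2) - x (n + 1)) by ring,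
          big (by nlinarith [h1 n, ih.1])]
        exact ih.1
    refine L 2 h2 fun n hn => ?_
    have := zer 2 _ hn
    rcases n with _ | _ | n
    · rw [h0, add_zero, zero_add] at hn
      simp [hn] at wp
    · rw [zero_add, e1, x1, h] at this
      nlinarith
    · linarith [h3 n, (h4 n).2]

variable {K : Type} [Field K]

/-- the normal-form parameter `c` of a quadratic polynomial -/
noncomputable def par (f : K[X]) : K := f.coeff 2 * f.coeff 0 + f.coeff 1 / 2 - f.coeff 1 ^ 2 / 4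

theorem shape {f : K[X]} (h : f.natDegree = 2) :
    f = C (f.coeff 2) * X ^ 2 + C (f.coeff 1) * X + C (f.coeff 0) ∧ f.coeff 2 ≠ 0 := by
  refine ⟨?_, h ▸ leadingCoeff_ne_zero.2 (by rintro rfl; simp at h)⟩
  conv_lhs => rw [f.as_sum_range_C_mul_X_pow, h]
  simp [Finset.sum_range_succ]; ring

theorem conj_symm {f g : K[X]} (h : Conj f g) : Conj g f := by
  obtain ⟨a, b, ha, h⟩ := h
  refine ⟨a⁻¹, -(a⁻¹ * b), inv_ne_zero ha, ?_⟩
  have e : C a⁻¹ * C a = (1 : K[X]) := by rw [← C_mul, inv_mul_cancel₀ ha, C_1]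
  have := congrArg (·.comp (C a⁻¹ * X + C (-(a⁻¹ * b)))) h
  simp only [comp_assoc, add_comp, mul_comp, C_comp, X_comp] at this
  rw [show C a * (C a⁻¹ * X + C (-(a⁻¹ * b))) + C b = X by
    rw [C_neg, C_mul]; linear_combination (X - C b) * e, comp_X] at this
  rw [← this, C_neg, C_mul]
  linear_combination (f.comp (C a⁻¹ * X + -(C a⁻¹ * C b))) * e

theorem conj_trans {f g k : K[X]} (h : Conj f g) (h' : Conj g k) : Conj f k := by
  obtain ⟨a, b, ha, h⟩ := h
  obtain ⟨a', b', ha', h'⟩ := h'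
  refine ⟨a' * a, a' * b + b', mul_ne_zero ha' ha, ?_⟩
  have := congrArg (·.comp (C a * X + C b)) h'
  simp only [comp_assoc, add_comp, mul_comp, C_comp, X_comp, ← h] at this
  rw [C_add, C_mul, C_mul, show C a' * C a * X + (C a' * C b + C b') =
    C a' * (C a * X + C b) + C b' by ring, ← this]
  ring

theorem conj_nf [CharZero K] {f : K[X]} (h : f.natDegree = 2) :
    C (f.coeff 2) * f + C (f.coeff 1 / 2) =
      (X ^ 2 + C (par f)).comp (C (f.coeff 2) * X + C (f.coeff 1 / 2)) := by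
  refine Polynomial.funext fun z => ?_
  have := congrArg (eval z) (shape h).1
  simp only [eval_add, eval_mul, eval_C, eval_X, eval_pow, eval_comp, par] at this ⊢
  rw [this]; ring

theorem nf_inj [CharZero K] {c c' : K} (h : Conj (X ^ 2 + C c) (X ^ 2 + C c')) : c = c' := by
  obtain ⟨a, b, ha, h⟩ := h
  have h0 := congrArg (eval 0) h
  have h1 := congrArg (eval 1) h
  have h2 := congrArg (eval (-1)) h
  simp only [eval_add, eval_mul, eval_C, eval_X, eval_pow, eval_comp] at h0 h1 h2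
  have hb : b = 0 := mul_left_cancel₀ (mul_ne_zero (by norm_num : (4 : K) ≠ 0) ha)
    (by linear_combination h2 - h1)
  have ha' : a = 1 := mul_left_cancel₀ ha (by subst hb; linear_combination h0 - h1)
  subst hb ha'
  linear_combination h0

/-- Q2 fails: `P_d(ℚ_p) ∩ PCF` is not infinite for all `d ≥ 2` and primes `p`. -/
theorem result : ¬ ∀ d : ℕ, 2 ≤ d → ∀ (p : ℕ) [Fact p.Prime], (classes d p).Infinite := by
  intro H
  refine H 2 le_rfl 2 (((Set.toFinite ({0, -1, -2} : Set (AlgebraicClosure ℚ_[2]))).image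
    fun c => {g | Conj (X ^ 2 + C c) g}).subset ?_)
  rintro _ ⟨f, hd, hp, hσ, rfl⟩
  have a0 := (shape hd).2
  have n1 : Conj f (X ^ 2 + C (par f)) := ⟨_, _, a0, conj_nf hd⟩
  refine ⟨par f, ?_, Set.ext fun g => ⟨conj_trans n1, conj_trans (conj_symm n1)⟩⟩
  obtain ⟨c, hc⟩ := (InfiniteGalois.mem_range_algebraMap_iff_fixed (k := ℚ_[2]) (par f)).2 fun σ => by
    have hd' : (f.map (σ : AlgebraicClosure ℚ_[2] →+* AlgebraicClosure ℚ_[2])).natDegree = 2 := by
      rw [natDegree_map, hd]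
    have := nf_inj (conj_trans (conj_trans (conj_symm n1) (hσ σ)) ⟨_, _, (shape hd').2, conj_nf hd'⟩)
    refine Eq.trans ?_ this.symm
    simp [par, map_ofNat]
  have h1 := hp (-f.coeff 1 / (2 * f.coeff 2)) (by
    rw [(shape hd).1]; simp; field_simp; ring)
  have h2 : ∀ n, algebraMap ℚ_[2] (AlgebraicClosure ℚ_[2]) ((fun w => w ^ 2 + c)^[n] 0) =
      f.coeff 2 * (fun w => f.eval w)^[n] (-f.coeff 1 / (2 * f.coeff 2)) + f.coeff 1 / 2 := fun n => by
    induction n with
    | zero => simp; field_simp; ring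
    | succ n ih =>
      have := congrArg (eval ((fun w => f.eval w)^[n] (-f.coeff 1 / (2 * f.coeff 2)))) (conj_nf hd)
      simp only [eval_add, eval_mul, eval_C, eval_X, eval_pow, eval_comp] at this
      simp only [Function.iterate_succ_apply', map_add, map_pow, ih, hc, this]
  have h3 := key c (fun n => (fun w => w ^ 2 + c)^[n] 0) rfl
    (fun n => Function.iterate_succ_apply' _ _ _)
    (Set.Finite.of_finite_image (f := algebraMap ℚ_[2] (AlgebraicClosure ℚ_[2]))
      ((h1.image fun w => f.coeff 2 * w + f.coeff 1 / 2).subset (by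
        rintro _ ⟨_, ⟨n, rfl⟩, rfl⟩
        exact ⟨_, ⟨n, rfl⟩, (h2 n).symm⟩)) (algebraMap ℚ_[2] _).injective.injOn)
  rw [← hc]
  rcases h3 with rfl | rfl | rfl <;> simp [map_ofNat]

end Pool.Agent.Results.MP_505b57_nt.PolyFinite
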